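import Pool.Agent.H952R3.Ext.Stmts

set_option autoImplicit false

namespace Pool.Agent.H952R3.Ext.G34

open Pool.Agent.Helper766.Rad
open Pool.Agent.Helper766.Rad.Plane

variable {ι : Type} [DecidableEq ι]

section big

variable (M : RankFn ι) (E L : Finset ι) (hs : Simple M E) (hE : M.r E = 3) (hLE : L ⊆ E)
  (hL2 : M.r L = 2) (hL4 : 4 ≤ L.card) (hcl : ∀ x ∈ E \ L, M.r (insert x L) = 3)

include hs hLE hL2 hcl hE in
theorem fib_nobad {p q : ι} (hp : p ∈ E \ L) (hq : q ∈ E \ L) (hpq : p ≠ q)
    (hb : ∀ a ∈ L, M.r {a, p, q} ≠ 2) :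
    L.card.choose 2 ≤ (R3.fib M E L {p, q}).card := by
  have hpE := Finset.mem_sdiff.mp hp
  have hqE := Finset.mem_sdiff.mp hq
  have himg : (L.powersetCard 2).image (fun S => S ∪ {p, q}) ⊆ R3.fib M E L {p, q} := by
    intro C hC
    rw [Finset.mem_image] at hC
    obtain ⟨S, hS, rfl⟩ := hC
    rw [Finset.mem_powersetCard] at hS
    obtain ⟨a, b, hab, rfl⟩ := Finset.card_eq_two.mp hS.2
    have ha := hS.1 (by simp : a ∈ ({a, b} : Finset ι))
    have hb' := hS.1 (by simp : b ∈ ({a, b} : Finset ι))
    exact R3.quad_mem M E L hs hE hLE hL2 hcl ha hb' hab hp hq hpq (hb a ha) (hb b hb')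
  have hinj : Set.InjOn (fun S : Finset ι => S ∪ {p, q}) (L.powersetCard 2 : Set (Finset ι)) := by
    intro S hS S' hS' h
    rw [Finset.mem_coe, Finset.mem_powersetCard] at hS hS'
    have key : ∀ U : Finset ι, U ⊆ L → (U ∪ {p, q}) ∩ L = U := by
      intro U hU
      ext x
      simp only [Finset.mem_inter, Finset.mem_union, Finset.mem_insert, Finset.mem_singleton]
      constructor
      · rintro ⟨h | rfl | rfl, h'⟩
        · exact h
        · exact absurd h' hpE.2
        · exact absurd h' hqE.2
      · exact fun h => ⟨Or.inl h, hU h⟩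
    have h' : S ∪ {p, q} = S' ∪ {p, q} := h
    rw [← key S hS.1, ← key S' hS'.1, h']
  have hcard : ((L.powersetCard 2).image (fun S => S ∪ {p, q})).card = L.card.choose 2 := by
    rw [Finset.card_image_of_injOn hinj, Finset.card_powersetCard]
  rw [← hcard]
  exact Finset.card_le_card himg

include hs hLE hL2 in
theorem circs_ge_sum : L.card.choose 3
    + ∑ P ∈ (E \ L).powersetCard 2, (R3.fib M E L P).card
    + ∑ P ∈ (E \ L).powersetCard 3, (R3.fib M E L P).card
    ≤ (circs M E).card := by
  have hmap : ∀ C ∈ circs M E, C \ L ∈ (E \ L).powerset := by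
    intro C hC
    rw [R3.mem_circs] at hC
    rw [Finset.mem_powerset]
    exact Finset.sdiff_subset_sdiff hC.1 (Finset.Subset.refl _)
  have h := Finset.card_eq_sum_card_fiberwise hmap
  rw [h]
  have h0 : ∑ P ∈ (E \ L).powersetCard 0, (R3.fib M E L P).card
      + ∑ P ∈ (E \ L).powersetCard 2, (R3.fib M E L P).card
      + ∑ P ∈ (E \ L).powersetCard 3, (R3.fib M E L P).card
      ≤ ∑ P ∈ (E \ L).powerset, (R3.fib M E L P).card := by
    rw [← Finset.sum_union, ← Finset.sum_union]
    · apply Finset.sum_le_sum_of_subset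
      intro P hP
      simp only [Finset.mem_union, Finset.mem_powersetCard] at hP
      rw [Finset.mem_powerset]
      tauto
    · rw [Finset.disjoint_left]
      intro P h1 h2
      simp only [Finset.mem_union, Finset.mem_powersetCard] at h1 h2
      omega
    · rw [Finset.disjoint_left]
      intro P h1 h2
      simp only [Finset.mem_powersetCard] at h1 h2
      omega
  refine le_trans ?_ h0
  have s0 : L.card.choose 3 ≤ ∑ P ∈ (E \ L).powersetCard 0, (R3.fib M E L P).card := by
    rw [Finset.powersetCard_zero, Finset.sum_singleton]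
    exact R3.fib_empty M E L hs hLE hL2
  omega

end big

/-- the maximal line -/
theorem exists_line (M : RankFn ι) (E : Finset ι) (hs : Simple M E) (h3 : M.r E = 3)
    (hno : ¬ ∀ F ⊆ E, F.card = 4 → M.r F = 3) :
    ∃ L ⊆ E, M.r L = 2 ∧ 4 ≤ L.card ∧ (∀ x ∈ E \ L, M.r (insert x L) = 3) ∧
      1 ≤ (E \ L).card := by
  push Not at hno
  obtain ⟨F, hFE, hF4, hFr⟩ := hno
  have hFr2 : M.r F = 2 := by
    have h1 := M.mono _ _ hFE
    have h2 := R3.two_le M hs hFE (by omega)
    omega
  obtain ⟨L, hLmem, hLmax⟩ := Finset.exists_max_image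
    (E.powerset.filter (fun S => M.r S = 2)) Finset.card
    ⟨F, Finset.mem_filter.mpr ⟨Finset.mem_powerset.mpr hFE, hFr2⟩⟩
  rw [Finset.mem_filter, Finset.mem_powerset] at hLmem
  obtain ⟨hLE, hL2⟩ := hLmem
  have hL4 : 4 ≤ L.card := by
    rw [← hF4]
    exact hLmax F (Finset.mem_filter.mpr ⟨Finset.mem_powerset.mpr hFE, hFr2⟩)
  refine ⟨L, hLE, hL2, hL4, ?_, ?_⟩
  · intro x hx
    rw [Finset.mem_sdiff] at hx
    have h1 := M.mono _ _ (Finset.insert_subset hx.1 hLE)
    have h2 := M.mono _ _ (Finset.subset_insert x L)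
    by_contra hne
    have h4 : M.r (insert x L) = 2 := by omega
    have h5 := hLmax (insert x L) (Finset.mem_filter.mpr
      ⟨Finset.mem_powerset.mpr (Finset.insert_subset hx.1 hLE), h4⟩)
    rw [Finset.card_insert_of_notMem hx.2] at h5
    omega
  · by_contra hcon
    have : (E \ L).card = 0 := by omega
    rw [Finset.card_eq_zero, Finset.sdiff_eq_empty_iff_subset] at this
    have := M.mono _ _ this
    omega

/-- the case of two points outside the line -/
theorem hook_of_two (M : RankFn ι) (E L : Finset ι) (hs : Simple M E) (hE : M.r E = 3)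
    (hLE : L ⊆ E) (hL2 : M.r L = 2) (hcl : ∀ x ∈ E \ L, M.r (insert x L) = 3)
    (hk : (E \ L).card = 2) (hc : (circs M E).card < L.card.choose 3 + L.card.choose 2) :
    HookR M E.card E := by
  obtain ⟨p, q, hpq, hPQ⟩ := Finset.card_eq_two.mp hk
  have hp : p ∈ E \ L := by rw [hPQ]; simp
  have hq : q ∈ E \ L := by rw [hPQ]; simp
  have hcard : (E \ L).card + L.card = E.card := Finset.card_sdiff_add_card_eq_card hLE
  have hbad : ∃ a ∈ L, M.r {a, p, q} = 2 := by
    by_contra hcon
    push Not at hcon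
    have h1 := fib_nobad M E L hs hE hLE hL2 hcl hp hq hpq hcon
    have h2 := circs_ge_sum M E L hs hLE hL2
    have h3 : (R3.fib M E L {p, q}).card ≤ ∑ P ∈ (E \ L).powersetCard 2, (R3.fib M E L P).card := by
      apply Finset.single_le_sum (f := fun P => (R3.fib M E L P).card) (fun _ _ => Nat.zero_le _)
      rw [Finset.mem_powersetCard, ← hPQ]
      exact ⟨Finset.Subset.refl _, hk⟩
    omega
  obtain ⟨a, ha, har⟩ := hbad
  have hp' := Finset.mem_sdiff.mp hp
  have hq' := Finset.mem_sdiff.mp hq
  refine ⟨L, p, q, a, by omega, ?_, hp'.2, hq'.2, hpq, ha, hL2, har, hE⟩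
  ext x
  simp only [Finset.mem_insert]
  constructor
  · intro hx
    by_cases hxL : x ∈ L
    · exact Or.inr (Or.inr hxL)
    · have : x ∈ E \ L := Finset.mem_sdiff.mpr ⟨hx, hxL⟩
      rw [hPQ] at this
      simp only [Finset.mem_insert, Finset.mem_singleton] at this
      tauto
  · rintro (rfl | rfl | hx)
    · exact hp'.1
    · exact hq'.1
    · exact hLE hx

theorem arith_strict (v m : ℕ) (h : 2 ≤ v + (m + 1)) :
    (v + 4 + (m + 3) - 1).choose 3 <
      (v + 4).choose 3 + (m + 3).choose 2 * ((v + 4 - 1).choose 2 + 1) + (m + 3).choose 3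
        + (v + 4 + (m + 3) - 4) := by
  have e1 : v + 4 + (m + 3) - 1 = (v + m + 3) + 3 := by omega
  have e2 : v + 4 - 1 = (v + 1) + 2 := by omega
  have e3 : v + 4 + (m + 3) - 4 = v + m + 3 := by omega
  have e4 : v + 4 = (v + 1) + 3 := by omega
  rw [e1, e2, e3, e4]
  have c1 := R3.choose3 (v + m + 3)
  have c2 := R3.choose2 (v + 1)
  have c3 := R3.choose3 (v + 1)
  have c4 := R3.choose2 (m + 1)
  have c5 := R3.choose3 m
  have e5 : m + 1 + 2 = m + 3 := by omega
  rw [e5] at c4
  have key : 4 * ((m + 3).choose 2 * ((v + 1 + 2).choose 2 + 1))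
      = (m + 3) * (m + 1 + 1) * ((v + 1 + 2) * (v + 1 + 1) + 2) := by
    rw [← c2, ← c4]; ring
  have : (v + m + 3 + 3).choose 3 * 12 < 12 * ((v + 1 + 3).choose 3
      + (m + 3).choose 2 * ((v + 1 + 2).choose 2 + 1) + (m + 3).choose 3 + (v + m + 3)) := by
    have l1 : (v + m + 3 + 3).choose 3 * 12
        = 2 * ((v + m + 3 + 3) * (v + m + 3 + 2) * (v + m + 3 + 1)) := by rw [← c1]; ring
    have l2 : 12 * ((v + 1 + 3).choose 3
      + (m + 3).choose 2 * ((v + 1 + 2).choose 2 + 1) + (m + 3).choose 3 + (v + m + 3))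
      = 2 * ((v + 1 + 3) * (v + 1 + 2) * (v + 1 + 1))
        + 3 * ((m + 3) * (m + 1 + 1) * ((v + 1 + 2) * (v + 1 + 1) + 2))
        + 2 * ((m + 3) * (m + 2) * (m + 1)) + 12 * (v + m + 3) := by
      rw [← c3, ← key, ← c5]; ring
    rw [l1, l2]
    rcases v with _ | v
    · rcases m with _ | m
      · omega
      · ring_nf
        nlinarith [Nat.zero_le (m^2), Nat.zero_le (m^3)]
    · nlinarith [Nat.zero_le (v * m), Nat.zero_le (v^2 * m), Nat.zero_le (v * m^2),
        Nat.zero_le (v^2 * m^2), Nat.zero_le (m^2), Nat.zero_le (v^2), Nat.zero_le (m^3),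
        Nat.zero_le (v^3)]
  omega

theorem g3 : TaskG3 := by
  intro ι _ M E hs h3 h7 hc
  by_cases hno : ∀ F ⊆ E, F.card = 4 → M.r F = 3
  · right; right
    refine ⟨h7, h3, hno, ?_⟩
    have a2 := R3.quads_ge M E
    have a3 := R3.circs_ge M E hs h3
    change 6 ≤ (R3.tri M E).card
    rw [h7] at a2
    simp [Nat.choose] at a2
    omega
  · obtain ⟨L, hLE, hL2, hL4, hcl, hk⟩ := exists_line M E hs h3 hno
    have hcard : (E \ L).card + L.card = E.card := Finset.card_sdiff_add_card_eq_card hLE
    have hbig := R3.circs_ge_big M E L hs h3 hLE hL2 hL4 hcl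
    obtain h | h | h : L.card = 6 ∨ L.card = 5 ∨ L.card = 4 := by omega
    · exfalso
      have hk1 : (E \ L).card = 1 := by omega
      rw [h, hk1] at hbig
      simp [Nat.choose] at hbig
      omega
    · left
      have hk1 : (E \ L).card = 2 := by omega
      have := hook_of_two M E L hs h3 hLE hL2 hcl hk1 (by
        rw [h, hc]
        simp [Nat.choose])
      rwa [h7] at this
    · right; left
      have hk3 : (E \ L).card = 3 := by omega
      refine ⟨h7, h3, L, hLE, h, hL2, hcl, ?_⟩
      intro p hp q hq hpq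
      by_contra hcon
      push Not at hcon
      have h1 := fib_nobad M E L hs h3 hLE hL2 hcl hp hq hpq hcon
      have h2 := circs_ge_sum M E L hs hLE hL2
      have hmem : ({p, q} : Finset ι) ∈ (E \ L).powersetCard 2 := by
        rw [Finset.mem_powersetCard, Finset.card_pair hpq]
        refine ⟨?_, rfl⟩
        intro x hx
        simp only [Finset.mem_insert, Finset.mem_singleton] at hx
        rcases hx with rfl | rfl
        · exact hp
        · exact hq
      have h4 := Finset.add_sum_erase _ (fun P => (R3.fib M E L P).card) hmem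
      have h5 : (((E \ L).powersetCard 2).erase {p, q}).card * 4 ≤
          ∑ P ∈ ((E \ L).powersetCard 2).erase {p, q}, (R3.fib M E L P).card := by
        rw [← smul_eq_mul]
        apply Finset.card_nsmul_le_sum
        intro P hP
        have hP' := Finset.mem_powersetCard.mp (Finset.mem_of_mem_erase hP)
        have := R3.fib_pair M E L hs h3 hLE hL2 hL4 hcl hP'.1 hP'.2
        rw [h] at this
        simpa [Nat.choose] using this
      have h6 : (((E \ L).powersetCard 2).erase {p, q}).card = 2 := by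
        rw [Finset.card_erase_of_mem hmem, Finset.card_powersetCard, hk3]
        simp [Nat.choose]
      have h8 : (1 : ℕ) ≤ ∑ P ∈ (E \ L).powersetCard 3, (R3.fib M E L P).card := by
        have : ((E \ L).powersetCard 3).card * 1 ≤
            ∑ P ∈ (E \ L).powersetCard 3, (R3.fib M E L P).card := by
          rw [← smul_eq_mul]
          apply Finset.card_nsmul_le_sum
          intro P hP
          have hP' := Finset.mem_powersetCard.mp hP
          exact R3.fib_triple M E L hs h3 hLE hL2 hL4 hcl hP'.1 hP'.2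
        rw [Finset.card_powersetCard, hk3] at this
        simpa using this
      rw [h6] at h5
      rw [h] at h1 h2
      simp only [Nat.choose] at h1 h2
      omega

theorem g4 : TaskG4 := by
  intro ι _ M E hs h3 h8 hc
  by_cases hno : ∀ F ⊆ E, F.card = 4 → M.r F = 3
  · exfalso
    have a1 := R3.three_tri_le M E hs hno
    have a2 := R3.quads_ge M E
    have a3 := R3.circs_ge M E hs h3
    set t := (R3.tri M E).card
    set q := (R3.quads M E).card
    set c := (circs M E).card
    obtain ⟨m, hm⟩ : ∃ m, E.card = m + 8 := ⟨E.card - 8, by omega⟩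
    rw [hm] at a1 a2 hc
    have e1 : m + 8 - 1 = (m + 4) + 3 := by omega
    have e2 : m + 8 = (m + 4) + 4 := by omega
    have e3 : m + 8 - 3 = m + 5 := by omega
    have e4 : m + 8 - 4 = m + 4 := by omega
    have c3 := R3.choose3 (m + 4)
    have c4 := R3.choose4 (m + 4)
    rw [e1] at a1 hc
    rw [e4] at hc
    rw [e3] at a2
    have a1' : 6 * t ≤ (m + 8) * (m + 7) := by
      have : 2 * ((m + 4 + 3) / 2) ≤ m + 7 := by omega
      calc 6 * t = 2 * (3 * t) := by ring
        _ ≤ 2 * ((m + 8) * ((m + 4 + 3) / 2)) := by omega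
        _ = (m + 8) * (2 * ((m + 4 + 3) / 2)) := by ring
        _ ≤ (m + 8) * (m + 7) := Nat.mul_le_mul_left _ this
    rw [e2] at a2
    have hc2 : (m + 4 + 4).choose 4 ≤ c + t * (m + 4) := by
      nlinarith
    have h6t : 24 * (t * (m + 4)) ≤ 4 * ((m + 8) * (m + 7) * (m + 4)) := by
      nlinarith
    have goal24 : (m + 4 + 3).choose 3 * 24 < 24 * (c + (m + 4)) := by
      have : (m + 4 + 3).choose 3 * 24 = 4 * ((m + 4 + 3) * (m + 4 + 2) * (m + 4 + 1)) := by
        nlinarith
      rw [this]
      have hc' : (m + 4 + 4) * (m + 4 + 3) * (m + 4 + 2) * (m + 4 + 1)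
          ≤ 24 * c + 24 * (t * (m + 4)) := by
        rw [← c4]; nlinarith
      have hc'' : (m + 4 + 4) * (m + 4 + 3) * (m + 4 + 2) * (m + 4 + 1)
          ≤ 24 * c + 4 * ((m + 8) * (m + 7) * (m + 4)) := by omega
      nlinarith [mul_nonneg (Nat.zero_le m) (Nat.zero_le m), Nat.zero_le (m^3), Nat.zero_le (m^4),
        Nat.zero_le (m^2)]
    omega
  · obtain ⟨L, hLE, hL2, hL4, hcl, hk⟩ := exists_line M E hs h3 hno
    have hcard : (E \ L).card + L.card = E.card := Finset.card_sdiff_add_card_eq_card hLE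
    have hbig := R3.circs_ge_big M E L hs h3 hLE hL2 hL4 hcl
    rcases Nat.lt_or_ge (E \ L).card 2 with hk1 | hk2
    · exfalso
      have hk' : (E \ L).card = 1 := by omega
      rw [← hcard, hk'] at hc
      rw [hk'] at hbig
      have : 1 + L.card - 1 = L.card := by omega
      rw [this] at hc
      simp at hbig
      omega
    · rcases Nat.lt_or_ge (E \ L).card 3 with hk3 | hk3
      · have hk' : (E \ L).card = 2 := by omega
        apply hook_of_two M E L hs h3 hLE hL2 hcl hk'
        have e : E.card - 1 = L.card + 1 := by omega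
        rw [e, Nat.choose_succ_succ' L.card 2] at hc
        have : L.card.choose (2 + 1) = L.card.choose 3 := rfl
        omega
      · exfalso
        obtain ⟨m, hm⟩ : ∃ m, (E \ L).card = m + 3 := ⟨(E \ L).card - 3, by omega⟩
        obtain ⟨v, hv⟩ : ∃ v, L.card = v + 4 := ⟨L.card - 4, by omega⟩
        have hn : E.card = v + 4 + (m + 3) := by omega
        have := arith_strict v m (by omega)
        rw [hm, hv] at hbig
        rw [hn] at hc
        omega

end Pool.Agent.H952R3.Ext.G34
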